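import Pool.Agent.Y121.FC.Heis
import Pool.Agent.Y121.FC.Sq

/-!
# Simple tensor powers: all integral dimensions and all exponents

For all integers `d ≥ 2` and `n ≥ 1` there are a fusion category `C` over the complex numbers, of
Frobenius-Perron dimension `n d ^ (3 n)`, and a simple object `X` of `C` with `FPdim X = d` such that
`X ^ ⊗ N` is simple if and only if `N ≤ n`. So `s(X) = n`: among the objects of Frobenius-Perron
dimension `d`, for each `d ≥ 2`, the exponent `s(X)` takes all values, and there is no uniform bound.

The category is the crossed product of `Rep (H ^ n)` by the cyclic shifts, where `H` is the Heisenberg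
group of order `d ^ 3`, and `X` is the Schroedinger representation of the zeroth factor placed in
degree one. The construction of the crossed products is that of the starting file `NoUniformBound`
(`H = S₃`, `d = 2`), whose definitions of fusion categories, Frobenius-Perron dimensions and tensor
powers are used.
-/

open CategoryTheory CategoryTheory.Limits CategoryTheory.MonoidalCategory

namespace Pool.Agent.Results.MP_4aeb90_al.ExactExponents

open Pool.Agent.Results.MP_4aeb90_al.NoUniformBound

/-- For all `d ≥ 2` and `n ≥ 1` there is a fusion category with a simple object of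
Frobenius-Perron dimension `d`, the simple tensor powers of which are those with exponents `N ≤ n`. -/
theorem result (d n : ℕ) (hd : 2 ≤ d) (hn : 1 ≤ n) :
    ∃ (C : Type 1) (_ : Category.{0} C) (_ : Abelian C) (_ : Linear ℂ C)
      (_ : HasFiniteBiproducts C) (_ : MonoidalCategory C) (_ : MonoidalPreadditive C)
      (_ : MonoidalLinear ℂ C) (_ : RigidCategory C) (X : C),
      IsFusionCategory C ∧ Simple X ∧ (∀ N : ℕ, Simple (tensorPow X N) ↔ N ≤ n) ∧
      (∃ (r : ℕ) (S : Fin r → C), ListsSimples S) ∧
      ∀ (r : ℕ) (S : Fin r → C), ListsSimples S →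
        FPdim S X = d ∧ ∑ k, FPdim S (S k) ^ 2 = n * (d : ℝ) ^ (3 * n) := by
  have : NeZero d := ⟨by omega⟩
  have : NeZero n := ⟨by omega⟩
  have h := Pool.Agent.Y121.FC.simple_pow_iff d n hd
  refine ⟨Pool.Agent.Y121.FC.CG n (Pool.Agent.Y121.FC.Heis d), inferInstance, inferInstance,
    inferInstance, inferInstance, inferInstance, inferInstance, inferInstance, inferInstance,
    Pool.Agent.Y121.FC.XX n Pool.Agent.Y121.FC.Heis.M, Pool.Agent.Y121.FC.isFusion n, ?_, h,
    Pool.Agent.Y121.FC.exists_listsSimples n, ?_⟩
  · have h1 := (h 1).2 hn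
    change Simple (𝟙_ (Pool.Agent.Y121.FC.CG n (Pool.Agent.Y121.FC.Heis d)) ⊗
      Pool.Agent.Y121.FC.XX n Pool.Agent.Y121.FC.Heis.M) at h1
    exact Simple.of_iso (λ_ (Pool.Agent.Y121.FC.XX n Pool.Agent.Y121.FC.Heis.M)).symm
  · intro r S hS
    constructor
    · rw [Pool.Agent.Y121.FC.FPdim_XX n _ S hS, ZMod.card]
    · rw [Pool.Agent.Y121.FC.sum_sq_FPdim n S hS, Pool.Agent.Y121.FC.Heis.card_eq]
      push_cast
      rw [← pow_mul]

end Pool.Agent.Results.MP_4aeb90_al.ExactExponents
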